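import Mathlib

set_option autoImplicit false

/-!
# A hypo-unique-domination graph with a cut-vertex

We exhibit an explicit graph on 19 vertices (two copies of a 10-vertex hypo-UD graph glued at a vertex)
which has at least two minimum dominating sets, all of whose vertex-deleted subgraphs have exactly one
minimum dominating set, and which has a cut-vertex.
-/

namespace Pool.Agent.Results.MP_4402ee_co.CutVertex

universe u

/-- `D` dominates `G`: every vertex outside `D` has a neighbour in `D`. -/
def IsDominating {V : Type u} (G : SimpleGraph V) (D : Finset V) : Prop :=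
  ∀ x : V, x ∉ D → ∃ y ∈ D, G.Adj x y

/-- `D` is a gamma-set of `G`: a dominating set of minimum cardinality. -/
def IsGammaSet {V : Type u} (G : SimpleGraph V) (D : Finset V) : Prop :=
  IsDominating G D ∧ ∀ D' : Finset V, IsDominating G D' → D.card ≤ D'.card

/-- The vertex-deleted graph `G - v`, as an induced subgraph on the vertices different from `v`. -/
def deleteVertex {V : Type u} (G : SimpleGraph V) (v : V) : SimpleGraph {x : V // x ≠ v} :=
  G.comap (fun x => (x : V))

/-- `G` is a hypo-unique-domination graph: it has at least two distinct gamma-sets, while every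
vertex-deleted subgraph has exactly one gamma-set. -/
def IsHypoUD {V : Type u} (G : SimpleGraph V) : Prop :=
  (∃ D₁ D₂ : Finset V, D₁ ≠ D₂ ∧ IsGammaSet G D₁ ∧ IsGammaSet G D₂) ∧
    ∀ v : V, ∃! D : Finset {x : V // x ≠ v}, IsGammaSet (deleteVertex G v) D

/-- `v` is a cut-vertex of `G`: the graph `G - v` has more connected components than `G`. -/
def IsCutVertex {V : Type u} (G : SimpleGraph V) (v : V) : Prop :=
  Nat.card G.ConnectedComponent < Nat.card (deleteVertex G v).ConnectedComponent

/-! ### The graph -/

/-- Adjacency bit masks. -/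
def mask : Fin 19 → ℕ :=
  ![301644, 572, 899, 83, 138, 834, 809, 276, 228, 103, 292864, 459777, 41985, 70656, 427008,
    413697, 141312, 116736, 52225]

/-- Closed neighbourhoods as lists. -/
def nbrs : Fin 19 → List (Fin 19) :=
  ![[0, 2, 3, 6, 9, 11, 12, 15, 18], [1, 2, 3, 4, 5, 9], [2, 0, 1, 7, 8, 9], [3, 0, 1, 4, 6],
    [4, 1, 3, 7], [5, 1, 6, 8, 9], [6, 0, 3, 5, 8, 9], [7, 2, 4, 8], [8, 2, 5, 6, 7],
    [9, 0, 1, 2, 5, 6], [10, 11, 12, 13, 14, 18], [11, 0, 10, 16, 17, 18], [12, 0, 10, 13, 15],
    [13, 10, 12, 16], [14, 10, 15, 17, 18], [15, 0, 12, 14, 17, 18], [16, 11, 13, 17],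
    [17, 11, 14, 15, 16], [18, 0, 10, 11, 14, 15]]

/-- The unique minimum dominating set of `G - v`. -/
def tgt : Fin 19 → List (Fin 19) :=
  ![[1, 8, 10, 17], [6, 7, 10, 17], [4, 6, 10, 17], [7, 9, 10, 17], [2, 6, 10, 17],
    [2, 3, 10, 17], [1, 2, 10, 17], [1, 6, 10, 17], [4, 9, 10, 17], [3, 8, 10, 17],
    [1, 8, 15, 16], [1, 8, 13, 15], [1, 8, 16, 18], [1, 8, 11, 15], [1, 8, 11, 12],
    [1, 8, 10, 11], [1, 8, 10, 15], [1, 8, 13, 18], [1, 8, 12, 17]]

/-- Boolean adjacency. -/
def adjB (x y : Fin 19) : Bool := (mask x).testBit y.val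

theorem adjB_symm : ∀ x y : Fin 19, adjB x y = adjB y x := by decide +kernel

theorem adjB_irrefl : ∀ x : Fin 19, adjB x x = false := by decide +kernel

theorem mem_nbrs_iff : ∀ x y : Fin 19, (y ∈ nbrs x ↔ (x = y ∨ adjB x y = true)) := by
  decide +kernel

/-- The graph on 19 vertices. -/
def G : SimpleGraph (Fin 19) where
  Adj x y := adjB x y = true
  symm := ⟨fun x y h => by rw [adjB_symm]; exact h⟩
  loopless := ⟨fun x h => by rw [adjB_irrefl] at h; exact Bool.noConfusion h⟩

/-- Is `x` in the closed neighbourhood of the list `S`? -/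
def cov (S : List (Fin 19)) (x : Fin 19) : Bool := S.any (fun y => y == x || adjB x y)

/-- Branching search for all sets avoiding `v` that extend `S` by at most `k` vertices and dominate
everything except possibly `v`; it returns `true` only if all of them contain `T`. -/
def search (v : Fin 19) (T : List (Fin 19)) : ℕ → List (Fin 19) → Bool
  | 0, S => ((List.finRange 19).any (fun x => x != v && !(cov S x))) || T.all (fun t => S.contains t)
  | k + 1, S =>
    match (List.finRange 19).find? (fun x => x != v && !(cov S x)) with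
    | none => false
    | some x => (nbrs x).all (fun y => y == v || search v T k (y :: S))

theorem search_spec (v : Fin 19) (T : List (Fin 19)) (D : Finset (Fin 19)) (hv : v ∉ D)
    (hD : ∀ x, x ≠ v → ∃ y ∈ D, y = x ∨ adjB x y = true) :
    ∀ (k : ℕ) (S : List (Fin 19)), search v T k S = true → S.Nodup → (∀ y ∈ S, y ∈ D) →
      D.card ≤ S.length + k → ∀ t ∈ T, t ∈ D := by
  intro k
  induction k with
  | zero =>
    intro S hs hnd hSD hcard t ht
    have hsub : S.toFinset ⊆ D := by
      intro y hy
      exact hSD y (List.mem_toFinset.mp hy)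
    have hcs : S.toFinset.card = S.length := List.toFinset_card_of_nodup hnd
    have heq : S.toFinset = D := Finset.eq_of_subset_of_card_le hsub (by omega)
    unfold search at hs
    rw [Bool.or_eq_true] at hs
    rcases hs with hs | hs
    · exfalso
      rw [List.any_eq_true] at hs
      obtain ⟨x, _, hx⟩ := hs
      rw [Bool.and_eq_true] at hx
      obtain ⟨hx1, hx2⟩ := hx
      have hxv : x ≠ v := by simpa using hx1
      obtain ⟨y, hyD, hy⟩ := hD x hxv
      have hyS : y ∈ S := by
        rw [← heq] at hyD
        exact List.mem_toFinset.mp hyD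
      have : cov S x = true := by
        unfold cov
        rw [List.any_eq_true]
        refine ⟨y, hyS, ?_⟩
        rcases hy with hy | hy
        · simp [hy]
        · simp [hy]
      rw [this] at hx2
      exact Bool.noConfusion hx2
    · rw [List.all_eq_true] at hs
      have := hs t ht
      have htS : t ∈ S := by simpa using this
      exact hSD t htS
  | succ k ih =>
    intro S hs hnd hSD hcard t ht
    unfold search at hs
    split at hs
    · exact Bool.noConfusion hs
    · rename_i x hx
      have hx' := List.find?_some hx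
      rw [Bool.and_eq_true] at hx'
      obtain ⟨hx1, hx2⟩ := hx'
      have hxv : x ≠ v := by simpa using hx1
      have hxc : cov S x = false := by simpa using hx2
      obtain ⟨y, hyD, hy⟩ := hD x hxv
      have hyn : y ∈ nbrs x := by
        rw [mem_nbrs_iff]
        rcases hy with hy | hy
        · exact Or.inl hy.symm
        · exact Or.inr hy
      have hyv : y ≠ v := fun h => hv (h ▸ hyD)
      rw [List.all_eq_true] at hs
      have h1 := hs y hyn
      rw [Bool.or_eq_true] at h1
      have h2 : search v T k (y :: S) = true := by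
        rcases h1 with h1 | h1
        · exact absurd (by simpa using h1) hyv
        · exact h1
      have hyS : y ∉ S := by
        intro hyS
        have : cov S x = true := by
          unfold cov
          rw [List.any_eq_true]
          refine ⟨y, hyS, ?_⟩
          rcases hy with hy | hy
          · simp [hy]
          · simp [hy]
        rw [this] at hxc
        exact Bool.noConfusion hxc
      refine ih (y :: S) h2 (List.nodup_cons.mpr ⟨hyS, hnd⟩) ?_ ?_ t ht
      · intro z hz
        rcases List.mem_cons.mp hz with hz | hz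
        · rw [hz]; exact hyD
        · exact hSD z hz
      · simp only [List.length_cons]
        omega

theorem search_all : ∀ v : Fin 19, search v (tgt v) 4 [] = true := by decide +kernel

theorem tgt_nodup : ∀ v : Fin 19, (tgt v).Nodup := by decide +kernel

theorem tgt_length : ∀ v : Fin 19, (tgt v).length = 4 := by decide +kernel

theorem tgt_not_mem : ∀ v : Fin 19, v ∉ tgt v := by decide +kernel

theorem tgt_dom : ∀ v x : Fin 19, x ≠ v → x ∉ tgt v → ∃ y ∈ tgt v, adjB x y = true := by
  decide +kernel

theorem tgt_not_dom : ∀ v : Fin 19, ∀ y ∈ tgt v, adjB v y = false := by decide +kernel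

theorem tgt_unique (v : Fin 19) (D : Finset (Fin 19)) (hv : v ∉ D)
    (hD : ∀ x, x ≠ v → ∃ y ∈ D, y = x ∨ adjB x y = true) (hcard : D.card ≤ 4) :
    D = (tgt v).toFinset := by
  have h := search_spec v (tgt v) D hv hD 4 [] (search_all v) List.nodup_nil (by simp)
    (by simpa using hcard)
  symm
  apply Finset.eq_of_subset_of_card_le
  · intro y hy
    exact h y (List.mem_toFinset.mp hy)
  · rw [List.toFinset_card_of_nodup (tgt_nodup v), tgt_length]
    exact hcard

/-! ### The vertex-deleted subgraphs -/

theorem delete_unique (v : Fin 19) : ∃! D : Finset {x : Fin 19 // x ≠ v},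
    IsGammaSet (deleteVertex G v) D := by
  classical
  -- the set
  let D₀ : Finset {x : Fin 19 // x ≠ v} := (tgt v).toFinset.subtype (fun x => x ≠ v)
  have hmem : ∀ x : {x : Fin 19 // x ≠ v}, x ∈ D₀ ↔ (x : Fin 19) ∈ tgt v := by
    intro x
    simp [D₀]
  have hmap : D₀.map (Function.Embedding.subtype _) = (tgt v).toFinset := by
    ext y
    simp only [Finset.mem_map, Function.Embedding.subtype_apply, List.mem_toFinset]
    constructor
    · rintro ⟨a, ha, rfl⟩
      exact (hmem a).mp ha
    · intro hy
      have hyv : y ≠ v := fun h => tgt_not_mem v (h ▸ hy)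
      exact ⟨⟨y, hyv⟩, (hmem _).mpr hy, rfl⟩
  have hcard₀ : D₀.card = 4 := by
    rw [← Finset.card_map (Function.Embedding.subtype _), hmap,
      List.toFinset_card_of_nodup (tgt_nodup v), tgt_length]
  have hdom₀ : IsDominating (deleteVertex G v) D₀ := by
    intro x hx
    have hx' : (x : Fin 19) ∉ tgt v := fun h => hx ((hmem x).mpr h)
    obtain ⟨y, hy, hxy⟩ := tgt_dom v x x.2 hx'
    have hyv : y ≠ v := fun h => tgt_not_mem v (h ▸ hy)
    exact ⟨⟨y, hyv⟩, (hmem _).mpr hy, hxy⟩
  -- any dominating set with at most four elements is the target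
  have huniq : ∀ D : Finset {x : Fin 19 // x ≠ v}, IsDominating (deleteVertex G v) D →
      D.card ≤ 4 → D = D₀ := by
    intro D hD hc
    have h1 : D.map (Function.Embedding.subtype _) = (tgt v).toFinset := by
      apply tgt_unique v
      · simp
      · intro x hx
        by_cases hxD : (⟨x, hx⟩ : {x : Fin 19 // x ≠ v}) ∈ D
        · exact ⟨x, by simpa using ⟨hx, hxD⟩, Or.inl rfl⟩
        · obtain ⟨y, hy, hxy⟩ := hD ⟨x, hx⟩ hxD
          refine ⟨y, ?_, Or.inr hxy⟩
          rw [Finset.mem_map]
          exact ⟨y, hy, rfl⟩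
      · rw [Finset.card_map]; exact hc
    rw [← hmap] at h1
    exact Finset.map_injective _ h1
  refine ⟨D₀, ⟨hdom₀, ?_⟩, ?_⟩
  · intro D' hD'
    by_contra hlt
    push Not at hlt
    have := huniq D' hD' (by omega)
    rw [this] at hlt
    exact lt_irrefl _ hlt
  · rintro D ⟨hD1, hD2⟩
    exact huniq D hD1 (by have := hD2 D₀ hdom₀; omega)

/-! ### The whole graph -/

theorem five_le (D : Finset (Fin 19)) (hD : IsDominating G D) : 5 ≤ D.card := by
  by_contra hlt
  push Not at hlt
  have hex : ∃ v : Fin 19, v ∉ D := by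
    by_contra hno
    push Not at hno
    have : D = Finset.univ := Finset.eq_univ_iff_forall.mpr hno
    rw [this] at hlt
    simp at hlt
  obtain ⟨v, hv⟩ := hex
  have h1 : D = (tgt v).toFinset := by
    apply tgt_unique v D hv
    · intro x _
      by_cases hxD : x ∈ D
      · exact ⟨x, hxD, Or.inl rfl⟩
      · obtain ⟨y, hy, hxy⟩ := hD x hxD
        exact ⟨y, hy, Or.inr hxy⟩
    · omega
  obtain ⟨y, hy, hvy⟩ := hD v hv
  rw [h1] at hy
  have := tgt_not_dom v y (List.mem_toFinset.mp hy)
  have h2 : adjB v y = true := hvy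
  rw [this] at h2
  exact Bool.noConfusion h2

theorem dom_one : ∀ x : Fin 19, x ∉ ({0, 1, 2, 10, 11} : Finset (Fin 19)) →
    ∃ y ∈ ({0, 1, 2, 10, 11} : Finset (Fin 19)), adjB x y = true := by decide +kernel

theorem dom_two : ∀ x : Fin 19, x ∉ ({0, 1, 2, 10, 16} : Finset (Fin 19)) →
    ∃ y ∈ ({0, 1, 2, 10, 16} : Finset (Fin 19)), adjB x y = true := by decide +kernel

theorem isHypoUD_G : IsHypoUD G := by
  refine ⟨⟨{0, 1, 2, 10, 11}, {0, 1, 2, 10, 16}, by decide +kernel, ⟨dom_one, ?_⟩,
    ⟨dom_two, ?_⟩⟩, delete_unique⟩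
  · intro D' hD'
    have h5 : ({0, 1, 2, 10, 11} : Finset (Fin 19)).card = 5 := by decide +kernel
    rw [h5]
    exact five_le D' hD'
  · intro D' hD'
    have h5 : ({0, 1, 2, 10, 16} : Finset (Fin 19)).card = 5 := by decide +kernel
    rw [h5]
    exact five_le D' hD'

/-! ### The cut-vertex -/

theorem two_steps : ∀ x : Fin 19, x = 0 ∨ adjB 0 x = true ∨
    ∃ y : Fin 19, adjB 0 y = true ∧ adjB y x = true := by decide +kernel

theorem reach_zero (x : Fin 19) : G.Reachable 0 x := by
  rcases two_steps x with h | h | ⟨y, h1, h2⟩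
  · rw [h]
  · exact SimpleGraph.Adj.reachable (G := G) h
  · exact (SimpleGraph.Adj.reachable (G := G) h1).trans (SimpleGraph.Adj.reachable (G := G) h2)

theorem card_comp_G : Nat.card G.ConnectedComponent = 1 := by
  rw [Nat.card_eq_one_iff_unique]
  refine ⟨⟨?_⟩, ⟨G.connectedComponentMk 0⟩⟩
  intro a b
  induction a using SimpleGraph.ConnectedComponent.ind with
  | h a =>
    induction b using SimpleGraph.ConnectedComponent.ind with
    | h b =>
      exact SimpleGraph.ConnectedComponent.sound ((reach_zero a).symm.trans (reach_zero b))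

theorem same_side : ∀ x y : Fin 19, x ≠ 0 → y ≠ 0 → adjB x y = true →
    (decide (x.val ≤ 9)) = decide (y.val ≤ 9) := by decide +kernel

theorem reach_side (a b : {x : Fin 19 // x ≠ 0}) (h : (deleteVertex G 0).Reachable a b) :
    decide ((a : Fin 19).val ≤ 9) = decide ((b : Fin 19).val ≤ 9) := by
  obtain ⟨w⟩ := h
  induction w with
  | nil => rfl
  | @cons u v _ hadj _ ih =>
    rw [← ih]
    exact same_side u.1 v.1 u.2 v.2 hadj

theorem isCutVertex_zero : IsCutVertex G 0 := by
  unfold IsCutVertex
  rw [card_comp_G]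
  have hfin : Finite (deleteVertex G 0).ConnectedComponent := inferInstance
  rw [Finite.one_lt_card_iff_nontrivial]
  refine ⟨(deleteVertex G 0).connectedComponentMk ⟨1, by decide⟩,
    (deleteVertex G 0).connectedComponentMk ⟨10, by decide⟩, ?_⟩
  intro h
  have h1 := reach_side _ _ (SimpleGraph.ConnectedComponent.exact h)
  revert h1
  decide

/-- There is a hypo-unique-domination graph with a cut-vertex. -/
theorem result : ∃ G : SimpleGraph (Fin 19), IsHypoUD G ∧ ∃ v : Fin 19, IsCutVertex G v :=
  ⟨G, isHypoUD_G, 0, isCutVertex_zero⟩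

end Pool.Agent.Results.MP_4402ee_co.CutVertex
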